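import Pool.Agent.Helper56.RZ.GoalsB

/-!
# MP_f32c9c_an, project RZ, packet K2: blocks of the derivative of the twist
-/

set_option autoImplicit false

open Set Filter Topology MeasureTheory

open scoped ContDiff

namespace Pool.Agent.Helper74.RZ

open Pool.Agent.Helper56.RZ

theorem small_rpow (K β δ : ℝ) (hK : 0 ≤ K) (hβ : 0 < β) (hδ : 0 < δ) :
    ∃ ρ1 > 0, ∀ ρ : ℝ, 0 < ρ → ρ ≤ ρ1 → K * ρ ^ β ≤ δ := by
  have h1 : 0 < δ / (K + 1) := by positivity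
  refine ⟨(δ / (K + 1)) ^ (1 / β), Real.rpow_pos_of_pos h1 _, ?_⟩
  intro ρ hρ hρ1
  have h2 : ρ ^ β ≤ δ / (K + 1) := by
    calc ρ ^ β ≤ ((δ / (K + 1)) ^ (1 / β)) ^ β := Real.rpow_le_rpow hρ.le hρ1 hβ.le
      _ = δ / (K + 1) := by
        rw [← Real.rpow_mul h1.le, one_div_mul_cancel hβ.ne', Real.rpow_one]
  calc K * ρ ^ β ≤ K * (δ / (K + 1)) := by gcongr
    _ ≤ δ := by
      rw [mul_div_assoc', div_le_iff₀ (by positivity)]
      nlinarith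

/-- the estimate of one block -/
theorem block_est {N : ℕ} (Ai Aj Bi pi pj T D : End N) (R lam kap e t c η : ℝ) (ht : 0 ≤ t)
    (hR : 1 ≤ R) (hc : 1 ≤ c)
    (hBA : Bi * Aj = (Bi - Ai) * Aj)
    (hAj : ‖Aj‖ ≤ R) (hBi : ‖Bi‖ ≤ R) (hpi : ‖pi‖ ≤ R)
    (hlam : ‖Bi - Ai‖ ≤ lam) (hk1 : ‖Bi - pi‖ ≤ kap) (hk2 : ‖Aj - pj‖ ≤ kap)
    (hT : ‖T - 1 - t • D‖ ≤ e * t) (hD : ‖D‖ ≤ c)
    (h1 : lam * R ≤ η / 3 * t) (h2 : R * e * R ≤ η / 3) (h3 : 2 * (kap * c * R) ≤ η / 3) :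
    ‖Bi * T * Aj - t • (pi * D * pj)‖ ≤ η * t := by
  have hkap : 0 ≤ kap := (norm_nonneg _).trans hk1
  have hlam0 : 0 ≤ lam := (norm_nonneg _).trans hlam
  have key : Bi * T * Aj - t • (pi * D * pj) = (Bi - Ai) * Aj + Bi * (T - 1 - t • D) * Aj +
      t • ((Bi - pi) * D * Aj + pi * D * (Aj - pj)) := by
    have e1 : Bi * (t • D) = t • (Bi * D) := by ext v; simp
    have e2 : (t • (Bi * D)) * Aj = t • (Bi * D * Aj) := by ext v; simp
    rw [← hBA]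
    simp only [mul_sub, sub_mul, mul_one, e1, e2, smul_sub, smul_add]
    abel
  rw [key]
  have e1 : ‖(Bi - Ai) * Aj‖ ≤ lam * R :=
    (norm_mul_le _ _).trans (mul_le_mul hlam hAj (norm_nonneg _) hlam0)
  have e2 : ‖Bi * (T - 1 - t • D) * Aj‖ ≤ R * (e * t) * R := by
    refine (norm_mul_le _ _).trans (mul_le_mul ?_ hAj (norm_nonneg _) ?_)
    · exact (norm_mul_le _ _).trans (mul_le_mul hBi hT (norm_nonneg _) (by linarith))
    · exact mul_nonneg (by linarith) ((norm_nonneg _).trans hT)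
  have e3 : ‖(Bi - pi) * D * Aj‖ ≤ kap * c * R := by
    refine (norm_mul_le _ _).trans (mul_le_mul ?_ hAj (norm_nonneg _) (by positivity))
    exact (norm_mul_le _ _).trans (mul_le_mul hk1 hD (norm_nonneg _) hkap)
  have e4 : ‖pi * D * (Aj - pj)‖ ≤ R * c * kap := by
    refine (norm_mul_le _ _).trans (mul_le_mul ?_ hk2 (norm_nonneg _) (by positivity))
    exact (norm_mul_le _ _).trans (mul_le_mul hpi hD (norm_nonneg _) (by linarith))
  have e5 : ‖t • ((Bi - pi) * D * Aj + pi * D * (Aj - pj))‖ ≤ t * (2 * (kap * c * R)) := by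
    rw [norm_smul, Real.norm_of_nonneg ht]
    refine mul_le_mul_of_nonneg_left ?_ ht
    refine (norm_add_le _ _).trans ?_
    nlinarith
  calc ‖(Bi - Ai) * Aj + Bi * (T - 1 - t • D) * Aj +
      t • ((Bi - pi) * D * Aj + pi * D * (Aj - pj))‖
      ≤ ‖(Bi - Ai) * Aj‖ + ‖Bi * (T - 1 - t • D) * Aj‖ +
        ‖t • ((Bi - pi) * D * Aj + pi * D * (Aj - pj))‖ := norm_add₃_le
    _ ≤ lam * R + R * (e * t) * R + t * (2 * (kap * c * R)) := by gcongr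
    _ ≤ η / 3 * t + η / 3 * t + t * (η / 3) := by
        refine add_le_add (add_le_add h1 ?_) (mul_le_mul_of_nonneg_left h3 ht)
        calc R * (e * t) * R = R * e * R * t := by ring
          _ ≤ η / 3 * t := mul_le_mul_of_nonneg_right h2 ht
    _ = η * t := by ring

theorem neg_mid {N : ℕ} (p q T : End N) : p * (-T) * q = -(p * T * q) := by
  ext v
  simp

/-- **K2** (blocks of the derivative of the twist, Euclidean space). -/
theorem k2 : StmtF1 → StmtF3 → StmtK2 := by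
  intro F1 F3 N r α a r0 C z0 ph d hr hα hα2 ha ha1 hr0 hP hC η hη
  have hz0 : z0 ∈ Metric.closedBall z0 r0 := Metric.mem_closedBall_self hr0.le
  obtain ⟨hsm, -, -, hqH, hinv, -, -, c1, hc1, hq⟩ := (F1 N (fun i => ph i z0) (hP z0 hz0)).2 d
  obtain ⟨c2, hc2, hF3⟩ := F3 N (fun i => ph i z0) (hP z0 hz0) d
  have hrR : (2 : ℝ) ≤ r := by exact_mod_cast hr
  have hα0 : 0 < α := by
    have : 1 / (r : ℝ) ≤ 1 / 2 := one_div_le_one_div_of_le (by norm_num) hrR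
    linarith
  -- the constants
  obtain ⟨C1, hC1, hCC1⟩ : ∃ C1 : ℝ, 1 ≤ C1 ∧ C ≤ C1 := ⟨max C 1, le_max_right _ _, le_max_left _ _⟩
  obtain ⟨R, hR1, hRp⟩ : ∃ R : ℝ, 1 ≤ R ∧ ∀ i, ‖ph i z0‖ + 1 ≤ R := by
    refine ⟨‖ph 0 z0‖ + ‖ph 1 z0‖ + ‖ph 2 z0‖ + 1, ?_, ?_⟩
    · have h0 := norm_nonneg (ph 0 z0)
      have h1 := norm_nonneg (ph 1 z0)
      have h2 := norm_nonneg (ph 2 z0)
      linarith
    · intro i
      have h0 := norm_nonneg (ph 0 z0)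
      have h1 := norm_nonneg (ph 1 z0)
      have h2 := norm_nonneg (ph 2 z0)
      fin_cases i
      · change ‖ph 0 z0‖ + 1 ≤ _
        linarith
      · change ‖ph 1 z0‖ + 1 ≤ _
        linarith
      · change ‖ph 2 z0‖ + 1 ≤ _
        linarith
  have hβ : 0 < (r : ℝ) * α - ((r : ℝ) - 1) := by
    have h1 : (r : ℝ) * (1 - 1 / (r : ℝ)) < (r : ℝ) * α :=
      mul_lt_mul_of_pos_left hα2 (by linarith)
    have h2 : (r : ℝ) * (1 - 1 / (r : ℝ)) = (r : ℝ) - 1 := by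
      field_simp
    linarith
  have hη3 : 0 < η / 3 := by positivity
  obtain ⟨s1, hs1, hs1'⟩ := small_rpow (R * (2 * c2 ^ 2) * R) 1 (η / 3) (by positivity)
    one_pos hη3
  obtain ⟨s2, hs2, hs2'⟩ := small_rpow (2 * c2 * R * (C1 * c1 ^ α)) α (min (η / 3) 1)
    (by positivity) hα0 (by positivity)
  obtain ⟨s3, hs3, hs3'⟩ := small_rpow (R * (C1 * (c2 * a) ^ α) * a⁻¹) _ (η / 3)
    (by positivity) hβ hη3
  refine ⟨min (min 1 (r0 / c1)) (min s1 (min s2 s3)), ?_, ?_⟩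
  · have : 0 < r0 / c1 := by positivity
    exact lt_min (lt_min one_pos this) (lt_min hs1 (lt_min hs2 hs3))
  intro ρ hρ hρle y hqy
  have hρ1 : ρ ≤ 1 := hρle.trans ((min_le_left _ _).trans (min_le_left _ _))
  have hρr : ρ ≤ r0 / c1 := hρle.trans ((min_le_left _ _).trans (min_le_right _ _))
  have hρs : ρ ≤ min s1 (min s2 s3) := hρle.trans (min_le_right _ _)
  have q1 := hs1' ρ hρ (hρs.trans (min_le_left _ _))
  have q2 := hs2' ρ hρ (hρs.trans ((min_le_right _ _).trans (min_le_left _ _)))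
  have q3 := hs3' ρ hρ (hρs.trans ((min_le_right _ _).trans (min_le_right _ _)))
  rw [Real.rpow_one] at q1
  -- the time
  obtain ⟨t, htdef⟩ : ∃ t : ℝ, t = a * ρ ^ (r - 1) := ⟨_, rfl⟩
  rw [← htdef]
  have ht0 : 0 < t := by rw [htdef]; positivity
  have htρ : t ≤ ρ := by
    rw [htdef]
    have : ρ ^ (r - 1) ≤ ρ := pow_le_of_le_one hρ.le hρ1 (by omega)
    calc a * ρ ^ (r - 1) ≤ 1 * ρ := mul_le_mul ha1 this (by positivity) (by norm_num)
      _ = ρ := one_mul _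
  have ht1 : t ≤ 1 := htρ.trans hρ1
  have habs : |t| = t := abs_of_pos ht0
  have habs' : |(-t)| = t := by rw [abs_neg, habs]
  -- points
  have hnorm : ∀ w : E N, d.q w ≤ 1 → ‖w‖ ≤ c1 := by
    intro w hw
    have h1 := (hq w).1
    have h2 : ‖w‖ ^ 2 ≤ c1 ^ 2 := by
      calc ‖w‖ ^ 2 ≤ c1 * d.q w := h1
        _ ≤ c1 * 1 := mul_le_mul_of_nonneg_left hw (by linarith)
        _ ≤ c1 ^ 2 := by nlinarith
    exact (pow_le_pow_iff_left₀ (norm_nonneg _) (by linarith) (by norm_num)).1 h2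
  have hqy' : d.q (d.H t y) ≤ 1 := by rw [hqH]; exact hqy
  have hball : ∀ w : E N, d.q w ≤ 1 → z0 + ρ • w ∈ Metric.closedBall z0 r0 ∧
      ‖z0 + ρ • w - z0‖ ≤ c1 * ρ := by
    intro w hw
    have h1 : ‖z0 + ρ • w - z0‖ ≤ c1 * ρ := by
      rw [add_sub_cancel_left, norm_smul, Real.norm_of_nonneg hρ.le, mul_comm]
      exact mul_le_mul_of_nonneg_right (hnorm w hw) hρ.le
    refine ⟨?_, h1⟩
    rw [Metric.mem_closedBall, dist_eq_norm]
    refine h1.trans ?_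
    rw [mul_comm]
    exact (le_div_iff₀ (by linarith)).1 hρr
  obtain ⟨hb1, hn1⟩ := hball y hqy
  obtain ⟨hb2, hn2⟩ := hball (d.H t y) hqy'
  obtain ⟨f1, f2, f3, f4⟩ := hF3 t y (by rw [habs]; exact ht1)
  obtain ⟨-, g2, -, -⟩ := hF3 (-t) (d.H t y) (by rw [habs']; exact ht1)
  rw [habs] at f1 f2
  rw [habs'] at g2
  have hn3 : ‖z0 + ρ • d.H t y - (z0 + ρ • y)‖ ≤ c2 * (ρ * t) := by
    rw [add_sub_add_left_eq_sub, ← smul_sub, norm_smul, Real.norm_of_nonneg hρ.le]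
    calc ρ * ‖d.H t y - y‖ ≤ ρ * (c2 * t) := mul_le_mul_of_nonneg_left f1 hρ.le
      _ = c2 * (ρ * t) := by ring
  -- derivatives
  have hdiff : ∀ s : ℝ, Differentiable ℝ (d.H s) := by
    intro s
    have h1 : ContDiff ℝ ∞ (fun z : E N => d.H s z) :=
      hsm.comp (contDiff_const.prodMk contDiff_id)
    exact h1.differentiable (by simp)
  have hST : fderiv ℝ (d.H (-t)) (d.H t y) * fderiv ℝ (d.H t) y = 1 := by
    have h1 : HasFDerivAt (fun z => d.H (-t) (d.H t z))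
        (fderiv ℝ (d.H (-t)) (d.H t y) ∘L fderiv ℝ (d.H t) y) y :=
      ((hdiff (-t)) (d.H t y)).hasFDerivAt.comp y ((hdiff t) y).hasFDerivAt
    have h2 : (fun z => d.H (-t) (d.H t z)) = fun z => z := by
      funext z
      exact hinv t z
    rw [h2] at h1
    exact h1.unique (hasFDerivAt_id y)
  have hTS : fderiv ℝ (d.H t) y * fderiv ℝ (d.H (-t)) (d.H t y) = 1 := by
    have h1 : HasFDerivAt (fun z => d.H t (d.H (-t) z))
        (fderiv ℝ (d.H t) (d.H (-t) (d.H t y)) ∘L fderiv ℝ (d.H (-t)) (d.H t y)) (d.H t y) :=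
      ((hdiff t) (d.H (-t) (d.H t y))).hasFDerivAt.comp _ ((hdiff (-t)) (d.H t y)).hasFDerivAt
    have h2 : (fun z => d.H t (d.H (-t) z)) = fun z => z := by
      funext z
      have := hinv (-t) z
      rwa [neg_neg] at this
    rw [h2, hinv] at h1
    exact h1.unique (hasFDerivAt_id _)
  have hS2 : ‖fderiv ℝ (d.H (-t)) (d.H t y) - 1 - t • (-(fderiv ℝ d.X y))‖
      ≤ (2 * c2 ^ 2 * t) * t := by
    have h1 : fderiv ℝ (d.H (-t)) (d.H t y) - 1 - t • (-(fderiv ℝ d.X y)) =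
        -(fderiv ℝ (d.H t) y - 1 - t • fderiv ℝ d.X y) -
          (fderiv ℝ (d.H (-t)) (d.H t y) - 1) * (fderiv ℝ (d.H t) y - 1) := by
      rw [sub_mul, mul_sub, hST]
      simp only [mul_one, one_mul, smul_neg]
      abel
    rw [h1]
    calc ‖-(fderiv ℝ (d.H t) y - 1 - t • fderiv ℝ d.X y) -
          (fderiv ℝ (d.H (-t)) (d.H t y) - 1) * (fderiv ℝ (d.H t) y - 1)‖
        ≤ ‖-(fderiv ℝ (d.H t) y - 1 - t • fderiv ℝ d.X y)‖ +
          ‖(fderiv ℝ (d.H (-t)) (d.H t y) - 1) * (fderiv ℝ (d.H t) y - 1)‖ := norm_sub_le _ _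
      _ ≤ c2 * t ^ 2 + (c2 * t) * (c2 * t) := by
          rw [norm_neg]
          refine add_le_add f3 ((norm_mul_le _ _).trans
            (mul_le_mul g2 f2 (norm_nonneg _) (by positivity)))
      _ ≤ (2 * c2 ^ 2 * t) * t := by
          have : c2 * t ^ 2 ≤ c2 ^ 2 * t ^ 2 :=
            mul_le_mul_of_nonneg_right (by nlinarith) (by positivity)
          nlinarith
  have hT2 : ‖fderiv ℝ (d.H t) y - 1 - t • fderiv ℝ d.X y‖ ≤ (2 * c2 ^ 2 * t) * t := by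
    refine f3.trans ?_
    have : c2 * t ^ 2 ≤ c2 ^ 2 * t ^ 2 :=
      mul_le_mul_of_nonneg_right (by nlinarith) (by positivity)
    nlinarith [sq_nonneg (c2 * t)]
  -- Hölder estimates
  have hhol : ∀ z ∈ Metric.closedBall z0 r0, ∀ z' ∈ Metric.closedBall z0 r0, ∀ i, ∀ b : ℝ,
      ‖z - z'‖ ≤ b → ‖ph i z - ph i z'‖ ≤ C1 * b ^ α := by
    intro z hz z' hz' i b hb
    calc ‖ph i z - ph i z'‖ ≤ C * ‖z - z'‖ ^ α := hC z hz z' hz' i
      _ ≤ C1 * ‖z - z'‖ ^ α := by gcongr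
      _ ≤ C1 * b ^ α := by gcongr
  have hkapdef : C1 * (c1 * ρ) ^ α = C1 * c1 ^ α * ρ ^ α := by
    rw [Real.mul_rpow (by linarith) hρ.le]
    ring
  have hkap0 : 0 ≤ C1 * (c1 * ρ) ^ α := by positivity
  have hc2R : 1 ≤ c2 * R := by nlinarith
  have hkapK : 2 * (C1 * (c1 * ρ) ^ α * c2 * R) ≤ min (η / 3) 1 := by
    rw [hkapdef]
    calc 2 * (C1 * c1 ^ α * ρ ^ α * c2 * R) = 2 * c2 * R * (C1 * c1 ^ α) * ρ ^ α := by ring
      _ ≤ _ := q2
  have hkapmin : C1 * (c1 * ρ) ^ α ≤ min (η / 3) 1 := by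
    refine le_trans ?_ hkapK
    have : C1 * (c1 * ρ) ^ α * 1 ≤ C1 * (c1 * ρ) ^ α * (c2 * R) :=
      mul_le_mul_of_nonneg_left hc2R hkap0
    nlinarith
  have hkap1 : C1 * (c1 * ρ) ^ α ≤ 1 := hkapmin.trans (min_le_right _ _)
  have hkapη : C1 * (c1 * ρ) ^ α ≤ η := by
    have := hkapmin.trans (min_le_left _ _)
    linarith
  have hk1 : ∀ i, ‖ph i (z0 + ρ • y) - ph i z0‖ ≤ C1 * (c1 * ρ) ^ α :=
    fun i => hhol _ hb1 _ hz0 i _ hn1
  have hk2 : ∀ i, ‖ph i (z0 + ρ • d.H t y) - ph i z0‖ ≤ C1 * (c1 * ρ) ^ α :=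
    fun i => hhol _ hb2 _ hz0 i _ hn2
  have hk3 : ∀ i, ‖ph i (z0 + ρ • d.H t y) - ph i (z0 + ρ • y)‖ ≤ C1 * (c2 * (ρ * t)) ^ α :=
    fun i => hhol _ hb2 _ hb1 i _ hn3
  have hk4 : ∀ i, ‖ph i (z0 + ρ • y) - ph i (z0 + ρ • d.H t y)‖ ≤ C1 * (c2 * (ρ * t)) ^ α := by
    intro i
    rw [norm_sub_rev]
    exact hk3 i
  have hR0 : ∀ i, ‖ph i z0‖ ≤ R := fun i => by linarith [hRp i]
  have hRA : ∀ i, ‖ph i (z0 + ρ • y)‖ ≤ R := by
    intro i
    have h1 := norm_le_norm_add_norm_sub' (ph i (z0 + ρ • y)) (ph i z0)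
    have h2 := hk1 i
    have h3 := hRp i
    linarith
  have hRB : ∀ i, ‖ph i (z0 + ρ • d.H t y)‖ ≤ R := by
    intro i
    have h1 := norm_le_norm_add_norm_sub' (ph i (z0 + ρ • d.H t y)) (ph i z0)
    have h2 := hk2 i
    have h3 := hRp i
    linarith
  have hlam : C1 * (c2 * (ρ * t)) ^ α * R ≤ η / 3 * t := by
    have h1 : (c2 * (ρ * t)) ^ α = (c2 * a) ^ α * (ρ ^ ((r : ℝ) * α - ((r : ℝ) - 1)) *
        ρ ^ (r - 1)) := by
      have e1 : c2 * (ρ * t) = (c2 * a) * ρ ^ r := by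
        rw [htdef]
        obtain ⟨k, rfl⟩ : ∃ k, r = k + 1 := ⟨r - 1, by omega⟩
        rw [Nat.add_sub_cancel, pow_succ]
        ring
      have e2 : (ρ ^ r) ^ α = ρ ^ ((r : ℝ) * α) := by
        rw [← Real.rpow_natCast ρ r, ← Real.rpow_mul hρ.le]
      have e3 : ρ ^ (r - 1) = ρ ^ ((r : ℝ) - 1) := by
        rw [← Real.rpow_natCast ρ (r - 1), Nat.cast_sub (by omega), Nat.cast_one]
      rw [e1, Real.mul_rpow (by positivity) (by positivity), e2, e3, ← Real.rpow_add hρ]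
      congr 2
      ring
    rw [h1]
    have h2 : ρ ^ (r - 1) = a⁻¹ * t := by
      rw [htdef]
      field_simp
    rw [h2]
    calc C1 * ((c2 * a) ^ α * (ρ ^ ((r : ℝ) * α - ((r : ℝ) - 1)) * (a⁻¹ * t))) * R
        = (R * (C1 * (c2 * a) ^ α) * a⁻¹ * ρ ^ ((r : ℝ) * α - ((r : ℝ) - 1))) * t := by ring
      _ ≤ η / 3 * t := mul_le_mul_of_nonneg_right q3 ht0.le
  have he : R * (2 * c2 ^ 2 * t) * R ≤ η / 3 := by
    refine le_trans ?_ q1
    calc R * (2 * c2 ^ 2 * t) * R = R * (2 * c2 ^ 2) * R * t := by ring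
      _ ≤ R * (2 * c2 ^ 2) * R * ρ := mul_le_mul_of_nonneg_left htρ (by positivity)
  have hc2t : c2 * t ≤ η := by
    have h1 : c2 * t ≤ R * (2 * c2 ^ 2 * t) * R := by
      have h2 : c2 ≤ R * R * (2 * c2 ^ 2) := by
        have h3 : 1 ≤ R * R := by nlinarith
        have h4 : c2 ≤ 2 * c2 ^ 2 := by nlinarith
        nlinarith
      calc c2 * t ≤ (R * R * (2 * c2 ^ 2)) * t := mul_le_mul_of_nonneg_right h2 ht0.le
        _ = _ := by ring
    linarith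
  have h3 : 2 * (C1 * (c1 * ρ) ^ α * c2 * R) ≤ η / 3 := hkapK.trans (min_le_left _ _)
  refine ⟨hb1, hb2, hTS, hST, f2.trans hc2t, g2.trans hc2t,
    fun i => ⟨(hk1 i).trans hkapη, (hk2 i).trans hkapη⟩, ?_⟩
  intro i j hij
  have hpA := (hP _ hb1).proj i j
  have hpB := (hP _ hb2).proj i j
  rw [if_neg hij] at hpA hpB
  constructor
  · refine block_est (ph i (z0 + ρ • y)) _ _ _ _ _ _ R
      (C1 * (c2 * (ρ * t)) ^ α) (C1 * (c1 * ρ) ^ α) (2 * c2 ^ 2 * t) t c2 η ht0.le hR1 hc2 ?_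
      (hRA j) (hRB i) (hR0 i) (hk3 i) (hk2 i) (hk1 j) hT2 f4 hlam he h3
    rw [sub_mul]
    change ph i (z0 + ρ • y) * ph j (z0 + ρ • y) = 0 at hpA
    rw [hpA, sub_zero]
  · have h4 := block_est (ph i (z0 + ρ • d.H t y)) (ph j (z0 + ρ • d.H t y))
      (ph i (z0 + ρ • y)) (ph i z0) (ph j z0)
      (fderiv ℝ (d.H (-t)) (d.H t y)) (-(fderiv ℝ d.X y)) R
      (C1 * (c2 * (ρ * t)) ^ α) (C1 * (c1 * ρ) ^ α) (2 * c2 ^ 2 * t) t c2 η ht0.le hR1 hc2 ?_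
      (hRB j) (hRA i) (hR0 i) (hk4 i) (hk1 i) (hk2 j) hS2 (by rw [norm_neg]; exact f4) hlam he h3
    · rw [neg_mid, smul_neg, sub_neg_eq_add] at h4
      exact h4
    · rw [sub_mul]
      change ph i (z0 + ρ • d.H t y) * ph j (z0 + ρ • d.H t y) = 0 at hpB
      rw [hpB, sub_zero]

end Pool.Agent.Helper74.RZ
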