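import Pool.Agent.Helper56.RZ.GoalsC

/-!
# MP_f32c9c_an, project RZ2, packet BA: determinants
-/

set_option autoImplicit false

open MeasureTheory

namespace Pool.Agent.Helper74.RZ

open Pool.Agent.Helper56.RZ

namespace BAx

/-- The determinant is at most the `N`-th power of a bound for the norm. -/
theorem abs_det_le {N : ℕ} (L : End N) (r : ℝ) (hr : 0 ≤ r) (hL : ‖L‖ ≤ r) :
    |L.det| ≤ r ^ N := by
  have h1 : (L : E N → E N) '' Metric.closedBall 0 1 ⊆ Metric.closedBall 0 r := by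
    rintro _ ⟨v, hv, rfl⟩
    rw [mem_closedBall_zero_iff] at hv ⊢
    calc ‖L v‖ ≤ ‖L‖ * ‖v‖ := L.le_opNorm v
      _ ≤ r * 1 := mul_le_mul hL hv (norm_nonneg _) hr
      _ = r := mul_one r
  have h2 := measure_mono (μ := (volume : Measure (E N))) h1
  rw [Measure.addHaar_image_continuousLinearMap, Measure.addHaar_closedBall' _ _ hr,
    finrank_euclideanSpace_fin] at h2
  have h3 : (volume : Measure (E N)) (Metric.closedBall 0 1) ≠ 0 :=
    (Metric.measure_closedBall_pos _ _ zero_lt_one).ne'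
  have h4 : (volume : Measure (E N)) (Metric.closedBall 0 1) ≠ ⊤ :=
    measure_closedBall_lt_top.ne
  rw [ENNReal.mul_le_mul_iff_left h3 h4] at h2
  exact (ENNReal.ofReal_le_ofReal_iff (by positivity)).1 h2

/-- The determinant of `1 + s p` for a projection `p` of rank one. -/
theorem det_one_add {N : ℕ} (p : End N) (hp : p * p = p)
    (hr : Module.finrank ℝ (LinearMap.range (p : E N →ₗ[ℝ] E N)) = 1) (s : ℝ) :
    (1 + s • p : End N).det = 1 + s := by
  obtain ⟨v, hv, hall⟩ := finrank_eq_one_iff'.1 hr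
  have hv0 : (v : E N) ≠ 0 := fun h => hv (Subtype.ext h)
  have hpv : p (v : E N) = v := by
    obtain ⟨w, hw⟩ := v.2
    have hw' : p w = (v : E N) := hw
    rw [← hw']
    have := congrArg (fun T : End N => T w) hp
    exact this
  let φ : E N →ₗ[ℝ] ℝ := (‖(v : E N)‖ ^ 2)⁻¹ • (innerSL ℝ (v : E N) : E N →L[ℝ] ℝ).toLinearMap
  have hφ : φ (v : E N) = 1 := by
    have h1 : φ (v : E N) = (‖(v : E N)‖ ^ 2)⁻¹ * inner ℝ (v : E N) (v : E N) := rfl
    rw [h1, real_inner_self_eq_norm_sq]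
    have : ‖(v : E N)‖ ≠ 0 := norm_ne_zero_iff.2 hv0
    field_simp
  have hpx : ∀ x, p x = φ (p x) • (v : E N) := by
    intro x
    obtain ⟨c, hc⟩ := hall ⟨p x, ⟨x, rfl⟩⟩
    have hc' : c • (v : E N) = p x := congrArg Subtype.val hc
    rw [← hc', map_smul, hφ, smul_eq_mul, mul_one]
  have h2 : ((1 + s • p : End N) : E N →ₗ[ℝ] E N) =
      LinearMap.transvection (s • (φ ∘ₗ (p : E N →ₗ[ℝ] E N))) (v : E N) := by
    ext1 x
    have h3 : LinearMap.transvection (s • (φ ∘ₗ (p : E N →ₗ[ℝ] E N))) (v : E N) x =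
        x + (s * φ (p x)) • (v : E N) := rfl
    have h4 : ((1 + s • p : End N) : E N →ₗ[ℝ] E N) x = x + s • p x := rfl
    rw [h3, h4, mul_smul, ← hpx]
  rw [ContinuousLinearMap.det, h2, LinearMap.transvection.det]
  have h5 : (s • (φ ∘ₗ (p : E N →ₗ[ℝ] E N))) (v : E N) = s * φ (p v) := rfl
  rw [h5, hpv, hφ, mul_one]

theorem two_le {N : ℕ} {p : Fin 3 → End N} (hp : Proj3 p)
    (h0 : Module.finrank ℝ (LinearMap.range (p 0 : E N →ₗ[ℝ] E N)) = 1)
    (h2 : Module.finrank ℝ (LinearMap.range (p 2 : E N →ₗ[ℝ] E N)) = 1) : 2 ≤ N := by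
  have h3 := LinearMap.finrank_range_add_finrank_ker (p 0 : E N →ₗ[ℝ] E N)
  rw [finrank_euclideanSpace_fin, h0] at h3
  have h4 : LinearMap.range (p 2 : E N →ₗ[ℝ] E N) ≤ LinearMap.ker (p 0 : E N →ₗ[ℝ] E N) := by
    rintro _ ⟨w, rfl⟩
    rw [LinearMap.mem_ker]
    have h5 := hp.proj 0 2
    rw [if_neg (by decide)] at h5
    exact congrArg (fun T : End N => T w) h5
  have h6 := Submodule.finrank_mono h4
  omega

theorem det_comb {N : ℕ} {p : Fin 3 → End N} (hp : Proj3 p)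
    (h0 : Module.finrank ℝ (LinearMap.range (p 0 : E N →ₗ[ℝ] E N)) = 1)
    (h2 : Module.finrank ℝ (LinearMap.range (p 2 : E N →ₗ[ℝ] E N)) = 1) (x y z : ℝ)
    (hy : y ≠ 0) :
    (x • p 0 + y • p 1 + z • p 2 : End N).det = x * z * y ^ (N - 2) := by
  have hN := two_le hp h0 h2
  have e00 := hp.proj 0 0
  have e22 := hp.proj 2 2
  have e02 := hp.proj 0 2
  rw [if_pos rfl] at e00 e22
  rw [if_neg (by decide)] at e02
  have h1 : (x • p 0 + y • p 1 + z • p 2 : End N) =
      y • ((1 + (x / y - 1) • p 0) * (1 + (z / y - 1) • p 2)) := by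
    ext1 v
    have e02v : p 0 (p 2 v) = 0 := congrArg (fun T : End N => T v) e02
    have hsv : p 0 v + p 1 v + p 2 v = v := congrArg (fun T : End N => T v) hp.sum
    have e1 : (x • p 0 + y • p 1 + z • p 2 : End N) v = x • p 0 v + y • p 1 v + z • p 2 v := rfl
    have e2 : (y • ((1 + (x / y - 1) • p 0) * (1 + (z / y - 1) • p 2)) : End N) v =
        y • ((v + (z / y - 1) • p 2 v) + (x / y - 1) • p 0 (v + (z / y - 1) • p 2 v)) := rfl
    rw [e1, e2, map_add, map_smul, e02v, smul_zero, add_zero]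
    have e3 : y • ((v + (z / y - 1) • p 2 v) + (x / y - 1) • p 0 v) =
        y • (((p 0 v + p 1 v + p 2 v) + (z / y - 1) • p 2 v) + (x / y - 1) • p 0 v) := by
      rw [hsv]
    rw [e3]
    match_scalars
    · field_simp
      ring
    · ring
    · field_simp
      ring
  rw [h1]
  have h3 : (y • ((1 + (x / y - 1) • p 0) * (1 + (z / y - 1) • p 2)) : End N).det =
      y ^ N * ((1 + (x / y - 1) • p 0 : End N).det * (1 + (z / y - 1) • p 2 : End N).det) := by
    simp only [ContinuousLinearMap.det]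
    have e1 : ((y • ((1 + (x / y - 1) • p 0) * (1 + (z / y - 1) • p 2)) : End N) :
        E N →ₗ[ℝ] E N) = y • (((1 + (x / y - 1) • p 0 : End N) : E N →ₗ[ℝ] E N) ∘ₗ
          ((1 + (z / y - 1) • p 2 : End N) : E N →ₗ[ℝ] E N)) := rfl
    rw [e1, LinearMap.det_smul, LinearMap.det_comp, finrank_euclideanSpace_fin]
  rw [h3, det_one_add (p 0) e00 h0, det_one_add (p 2) e22 h2]
  have h4 : y ^ N = y ^ (N - 2) * y ^ 2 := by rw [← pow_add, Nat.sub_add_cancel hN]
  rw [h4]
  field_simp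
  ring

end BAx

open BAx

/-- PACKET BA (determinants, linear algebra). -/
theorem ba : StmtBA := by
  intro N L p hp hne h0 h2 hdet
  have hinj : ∀ q : End N, L * q = 0 → q = 0 := by
    intro q hq
    have hd : LinearMap.det (L : E N →ₗ[ℝ] E N) ≠ 0 := by
      intro h
      have : L.det = 0 := h
      rw [this, abs_zero] at hdet
      exact zero_ne_one hdet
    have hk : LinearMap.ker (L : E N →ₗ[ℝ] E N) = ⊥ := by
      by_contra hk
      exact hd (LinearMap.det_eq_zero_iff_ker_ne_bot.2 hk)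
    ext1 w
    have h1 : L (q w) = 0 := congrArg (fun T : End N => T w) hq
    have h3 : q w ∈ LinearMap.ker (L : E N →ₗ[ℝ] E N) := h1
    rw [hk, Submodule.mem_bot] at h3
    exact h3
  have hpos : ∀ i, 0 < ‖L * p i‖ := by
    intro i
    rw [norm_pos_iff]
    exact fun h => hne i (hinj _ h)
  have hα := hpos 0
  have hγ := hpos 1
  have hβ := hpos 2
  have hnorm : ‖L * (‖L * p 0‖⁻¹ • p 0 + ‖L * p 1‖⁻¹ • p 1 + ‖L * p 2‖⁻¹ • p 2)‖ ≤ 3 := by
    have hms : ∀ (c : ℝ) (q : End N), L * (c • q) = c • (L * q) := by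
      intro c q
      ext1 v
      exact map_smul L c (q v)
    rw [mul_add, mul_add, hms, hms, hms]
    refine (norm_add₃_le).trans ?_
    rw [norm_smul, norm_smul, norm_smul, norm_inv, norm_inv, norm_inv, norm_norm, norm_norm,
      norm_norm, inv_mul_cancel₀ hα.ne', inv_mul_cancel₀ hγ.ne', inv_mul_cancel₀ hβ.ne']
    norm_num
  have hle := abs_det_le _ 3 (by norm_num) hnorm
  have hmul : (L * (‖L * p 0‖⁻¹ • p 0 + ‖L * p 1‖⁻¹ • p 1 + ‖L * p 2‖⁻¹ • p 2) : End N).det =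
      L.det * (‖L * p 0‖⁻¹ • p 0 + ‖L * p 1‖⁻¹ • p 1 + ‖L * p 2‖⁻¹ • p 2 : End N).det := by
    simp only [ContinuousLinearMap.det]
    rw [← LinearMap.det_comp]
    rfl
  rw [hmul, abs_mul, hdet, one_mul, det_comb hp h0 h2 _ _ _ (inv_ne_zero hγ.ne')] at hle
  rw [abs_of_pos (by positivity)] at hle
  have hfin : ‖L * p 0‖⁻¹ * ‖L * p 2‖⁻¹ * ‖L * p 1‖⁻¹ ^ (N - 2) *
      (‖L * p 0‖ * ‖L * p 2‖ * ‖L * p 1‖ ^ (N - 2)) = 1 := by
    rw [inv_pow]
    field_simp
  rw [← hfin]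
  exact mul_le_mul_of_nonneg_right hle (by positivity)

end Pool.Agent.Helper74.RZ
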